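import Pool.Agent.H40.EGD.Targets

/-!
# Row IOS: exact invariance
-/

namespace Pool.Agent.H30.EGD

open MeasureTheory Set Metric Filter Topology Pool.Agent.H93.BL Pool.Agent.H40.EGD

theorem IOS (hB3 : T_B3) : T_IOS := by
  intro ι P X z z' hz
  constructor
  · intro h N
    obtain ⟨n, hn, y, hy, hyX⟩ := h (N + 1)
    obtain ⟨m, rfl⟩ : ∃ m, n = m + 1 := ⟨n - 1, by omega⟩
    obtain ⟨y', hy', hym⟩ := hy
    rw [← (hB3 ι P z z' y').1 hz hy'] at hym
    exact ⟨m, by omega, y, hym, hyX⟩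
  · intro h N
    obtain ⟨n, hn, y, hy, hyX⟩ := h N
    exact ⟨n + 1, by omega, y, ⟨z', hz, hy⟩, hyX⟩

end Pool.Agent.H30.EGD
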