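import Pool.Agent.H40.EGD.Targets

/-!
# Row IOX: an invariant family agrees almost everywhere with its exact version
-/

namespace Pool.Agent.H30.EGD

open MeasureTheory Set Metric Filter Topology Pool.Agent.H93.BL Pool.Agent.H40.EGD

theorem IOX_it (hB3 : T_B3) {ι : Type} (P : Polygon ι) (f : ℤ → ι × ℝ × ℝ)
    (hf : ∀ n, P.Step (f n) (f (n + 1))) (n : ℕ) :
    ∀ (m : ℤ) (y : ι × ℝ × ℝ), it P n (f m) y ↔ y = f (m + n) := by
  induction n with
  | zero =>
    intro m y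
    rw [Nat.cast_zero, add_zero]
    exact eq_comm
  | succ n ih =>
    intro m y
    have h1 : m + ((n + 1 : ℕ) : ℤ) = (m + 1) + (n : ℤ) := by
      push_cast
      ring
    rw [h1, ← ih (m + 1) y]
    constructor
    · rintro ⟨y', hy', h⟩
      rwa [← (hB3 ι P (f m) (f (m + 1)) y').1 (hf m) hy'] at h
    · intro h
      exact ⟨f (m + 1), hf m, h⟩

theorem IOX (_hM1 : T_M1) (_hM6 : T_M6) (hM7 : T_M7) (hB3 : T_B3) : T_IOX := by
  intro ι _ P X hX i
  have h0 := hM7 ι P (fun i => {z | ¬ ((∃ z', P.Step (i, z) z' ∧ z'.2 ∈ X z'.1) ↔ z ∈ X i)})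
    (fun i => hX i) i
  filter_upwards [h0] with z hz
  obtain ⟨f, hf0, hf⟩ := hz
  have hstep : ∀ n, P.Step (f n) (f (n + 1)) := fun n => (hf n).1
  have hiff : ∀ n : ℤ, ((f (n + 1)).2 ∈ X (f (n + 1)).1 ↔ (f n).2 ∈ X (f n).1) := by
    intro n
    have h1 : (∃ z', P.Step ((f n).1, (f n).2) z' ∧ z'.2 ∈ X z'.1) ↔ (f n).2 ∈ X (f n).1 := by
      by_contra h2
      exact (hf n).2 h2
    rw [← h1]
    constructor
    · intro h2
      exact ⟨f (n + 1), hstep n, h2⟩
    · rintro ⟨z', hz', h2⟩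
      rwa [← (hB3 ι P (f n) (f (n + 1)) z').1 (hstep n) hz'] at h2
  have hall : ∀ n : ℕ, ((f n).2 ∈ X (f n).1 ↔ z ∈ X i) := by
    intro n
    induction n with
    | zero =>
      rw [Nat.cast_zero, hf0]
    | succ n ih =>
      rw [← ih]
      have h1 := hiff n
      push_cast
      exact h1
  have hit : ∀ (n : ℕ) (y : ι × ℝ × ℝ), it P n (i, z) y ↔ y = f n := by
    intro n y
    have h1 := IOX_it hB3 P f hstep n 0 y
    rwa [hf0, zero_add] at h1
  constructor
  · intro h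
    obtain ⟨n, _, y, hy, hyX⟩ := h 0
    rw [(hit n y).1 hy] at hyX
    exact (hall n).1 hyX
  · intro h N
    exact ⟨N, le_rfl, f N, (hit N _).2 rfl, (hall N).2 h⟩

end Pool.Agent.H30.EGD
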