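import Pool.Agent.H40.EGD.Targets

/-!
# Row MIO: the set of points visiting a measurable family infinitely often is measurable
-/

namespace Pool.Agent.H30.EGD

open MeasureTheory Set Metric Filter Topology Pool.Agent.H93.BL Pool.Agent.H40.EGD

theorem MIO_it (hPRE : T_PRE) {ι : Type} [Finite ι] (P : Polygon ι) (X : ι → Set (ℝ × ℝ))
    (hX : ∀ i, MeasurableSet (X i)) (n : ℕ) :
    ∀ i, MeasurableSet {z : ℝ × ℝ | ∃ z', it P n (i, z) z' ∧ z'.2 ∈ X z'.1} := by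
  induction n with
  | zero =>
    intro i
    have h : {z : ℝ × ℝ | ∃ z', it P 0 (i, z) z' ∧ z'.2 ∈ X z'.1} = X i := by
      ext z
      constructor
      · rintro ⟨z', h1, h2⟩
        have h3 : (i, z) = z' := h1
        rw [← h3] at h2
        exact h2
      · intro h
        exact ⟨(i, z), rfl, h⟩
    rw [h]
    exact hX i
  | succ n ih =>
    intro i
    have h := hPRE ι P (fun j => {z : ℝ × ℝ | ∃ z', it P n (j, z) z' ∧ z'.2 ∈ X z'.1}) ih i
    have h1 : {z : ℝ × ℝ | ∃ z', it P (n + 1) (i, z) z' ∧ z'.2 ∈ X z'.1} =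
        {z : ℝ × ℝ | ∃ z', P.Step (i, z) z' ∧
          z'.2 ∈ (fun j => {z : ℝ × ℝ | ∃ z', it P n (j, z) z' ∧ z'.2 ∈ X z'.1}) z'.1} := by
      ext z
      constructor
      · rintro ⟨z', ⟨y, hy, hz⟩, h2⟩
        exact ⟨y, hy, z', hz, h2⟩
      · rintro ⟨y, hy, z', hz, h2⟩
        exact ⟨z', ⟨y, hy, hz⟩, h2⟩
    rw [h1]
    exact h

theorem MIO (hPRE : T_PRE) : T_MIO := by
  intro ι _ P X hX i
  have h : {z : ℝ × ℝ | Io P X (i, z)} =
      ⋂ N : ℕ, ⋃ n : ℕ, ⋃ (_ : n ≥ N), {z : ℝ × ℝ | ∃ z', it P n (i, z) z' ∧ z'.2 ∈ X z'.1} := by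
    ext z
    constructor
    · intro hz
      refine mem_iInter.2 fun N => ?_
      obtain ⟨n, hn, hz'⟩ := hz N
      exact mem_iUnion₂.2 ⟨n, hn, hz'⟩
    · intro hz N
      obtain ⟨n, hn, hz'⟩ := mem_iUnion₂.1 (mem_iInter.1 hz N)
      exact ⟨n, hn, hz'⟩
  rw [h]
  exact MeasurableSet.iInter fun N => MeasurableSet.iUnion fun n => MeasurableSet.iUnion fun _ =>
    MIO_it hPRE P X hX n i

end Pool.Agent.H30.EGD
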